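import Pool.Agent.helper66.FB.Spec2
import Pool.Agent.helper72.UT.Total
import Pool.Agent.helper72.UT.Moment

/-!
Module CMP of part B of the functional form of MP_5ae64c_pr: comparison of the connection probability in a
forest rooted at `B` with the distance in the spanning tree (sum over the paths between the two vertices).
-/

set_option autoImplicit false
set_option linter.unusedSectionVars false

open scoped BigOperators Topology
open Filter MeasureTheory

namespace Pool.Agent.helper66.FB

open Finset
open Pool.Agent.helper72.UT (IsFor dep pth rt fors Reg lz PathTo mem_fors fors_nonempty pth_mem rt_mem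
  self_mem_pth pth_length pth_head dep_not_mem card_path)
open Pool.Agent.helper20.HP (ind HW W)
open Pool.Agent.helper90.FN (EF)

section aux
variable {V : Type} [DecidableEq V]

lemma CMP_iter_append (f : V → V) (x : V) (n : ℕ) :
    List.iterate f x n ++ [f^[n] x] = List.iterate f x (n + 1) := by
  induction n generalizing x with
  | zero => simp [List.iterate]
  | succ n ih =>
    rw [List.iterate, List.cons_append, Function.iterate_succ_apply, ih (f x)]
    rfl

lemma CMP_chain (f : V → V) (x : V) (n : ℕ) :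
    (List.iterate f x n).IsChain (fun u v => f u = v) := by
  induction n generalizing x with
  | zero => simp [List.iterate]
  | succ n ih =>
    rw [List.iterate]
    cases n with
    | zero => simp [List.iterate]
    | succ n =>
      have h := ih (f x)
      rw [List.iterate] at h ⊢
      rw [List.isChain_cons_cons]
      exact ⟨rfl, h⟩

lemma CMP_mem {f : V → V} {x u : V} {n : ℕ} (h : u ∈ List.iterate f x n) :
    ∃ m < n, u = f^[m] x := by
  rw [List.mem_iterate] at h
  obtain ⟨m, hm, h⟩ := h
  exact ⟨m, hm, h⟩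

/-- depth along the orbit -/
lemma CMP_dep {G : SimpleGraph V} {B : Finset V} {f : V → V} (hf : IsFor G B f) {x : V} {i : ℕ}
    (hi : f^[i] x ∉ B) : ∀ a, a ≤ i → f^[a] x ∉ B ∧ dep B f (f^[a] x) = dep B f (f^[i] x) + (i - a) := by
  have hB : ∀ a, a ≤ i → f^[a] x ∉ B := by
    intro a ha hx
    have h1 : ∀ n, f^[n] (f^[a] x) = f^[a] x := by
      intro n
      induction n with
      | zero => rfl
      | succ n ih => rw [Function.iterate_succ_apply', ih, hf.fix _ hx]
    have h2 := h1 (i - a)
    rw [← Function.iterate_add_apply, Nat.sub_add_cancel ha] at h2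
    rw [h2] at hi
    exact hi hx
  intro a ha
  refine ⟨hB a ha, ?_⟩
  obtain ⟨k, rfl⟩ := Nat.exists_eq_add_of_le ha
  clear hi ha
  induction k with
  | zero => simp
  | succ k ih =>
    have h1 := ih (fun b hb => hB b (by omega))
    have h2 : f^[a + k] x ∉ B := hB (a + k) (by omega)
    have h3 := dep_not_mem h2 (hf.hit _)
    rw [← Function.iterate_succ_apply' f] at h3
    have e : a + (k + 1) = (a + k).succ := by omega
    rw [h1, h3, e]
    omega

/-- the path between two vertices of the forest -/
lemma CMP_path {G : SimpleGraph V} {B : Finset V} {f : V → V} (hf : IsFor G B f) {x y : V} {ℓ : ℕ}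
    (h : ∃ i j, i + j ≤ ℓ ∧ f^[i] x = f^[j] y ∧ f^[i] x ∉ B) :
    ∃ η : List V, PathTo G y η ∧ η.head? = some x ∧ η.length ≤ ℓ + 1 ∧ (∀ u ∈ η, u ∉ B) ∧
      Cont f η := by
  classical
  -- minimal pair
  have hex : ∃ s, ∃ i j, i + j = s ∧ s ≤ ℓ ∧ f^[i] x = f^[j] y ∧ f^[i] x ∉ B := by
    obtain ⟨i, j, h1, h2, h3⟩ := h
    exact ⟨i + j, i, j, rfl, h1, h2, h3⟩
  obtain ⟨i, j, hs, hℓ, hij, hiB⟩ := Nat.find_spec hex
  have hmin : ∀ a b, a + b < i + j → f^[a] x ∉ B → f^[a] x ≠ f^[b] y := by
    intro a b hab haB he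
    have := Nat.find_min hex (m := a + b) (by rw [← hs]; exact hab)
    exact this ⟨a, b, rfl, by omega, he, haB⟩
  have hjB : f^[j] y ∉ B := hij ▸ hiB
  have hx := CMP_dep hf hiB
  have hy := CMP_dep hf hjB
  set z := f^[i] x with hz
  set A := List.iterate f x i with hA
  set C := List.iterate f y j with hC
  have hAz : A ++ [z] = List.iterate f x (i + 1) := CMP_iter_append f x i
  have hCz : C ++ [z] = List.iterate f y (j + 1) := by
    rw [hij]; exact CMP_iter_append f y j
  have hmemA : ∀ u ∈ A ++ [z], ∃ m ≤ i, u = f^[m] x := by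
    intro u hu
    rw [hAz] at hu
    obtain ⟨m, hm, h⟩ := CMP_mem hu
    exact ⟨m, by omega, h⟩
  have hmemC : ∀ u ∈ C, ∃ m < j, u = f^[m] y := fun u hu => CMP_mem hu
  have hmemη : ∀ u ∈ A ++ z :: C.reverse, (∃ m ≤ i, u = f^[m] x) ∨ (∃ m < j, u = f^[m] y) := by
    intro u hu
    rw [List.mem_append, List.mem_cons, List.mem_reverse] at hu
    rcases hu with hu | hu | hu
    · exact Or.inl (hmemA u (List.mem_append.2 (Or.inl hu)))
    · exact Or.inl ⟨i, le_refl _, hu⟩
    · exact Or.inr (hmemC u hu)
  have hnB : ∀ u ∈ A ++ z :: C.reverse, u ∉ B := by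
    intro u hu
    rcases hmemη u hu with ⟨m, hm, rfl⟩ | ⟨m, hm, rfl⟩
    · exact (hx m hm).1
    · exact (hy m hm.le).1
  have hdep : ∀ u ∈ A ++ z :: C.reverse, dep B f z ≤ dep B f u := by
    intro u hu
    rcases hmemη u hu with ⟨m, hm, rfl⟩ | ⟨m, hm, rfl⟩
    · rw [(hx m hm).2]; omega
    · rw [(hy m hm.le).2, ← hij]; omega
  have hc1 : (A ++ [z]).IsChain (fun u v => f u = v) := by rw [hAz]; exact CMP_chain f x _
  have hc2 : (z :: C.reverse).IsChain (fun u v => f v = u) := by
    have : (C ++ [z]).IsChain (fun u v => f u = v) := by rw [hCz]; exact CMP_chain f y _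
    have h2 : (C ++ [z]).reverse.IsChain (fun u v => f v = u) := List.isChain_reverse.2 this
    rwa [List.reverse_append, List.reverse_singleton, List.singleton_append] at h2
  have hnodA : (A ++ [z]).Nodup := by
    rw [hAz, List.nodup_iff_injective_get]
    intro p q hpq
    simp only [List.get_eq_getElem, List.getElem_iterate] at hpq
    have hp : p.1 < i + 1 := lt_of_lt_of_eq p.2 (List.length_iterate f x (i + 1))
    have hq : q.1 < i + 1 := lt_of_lt_of_eq q.2 (List.length_iterate f x (i + 1))
    have h1 := (hx p.1 (by omega)).2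
    have h2 := (hx q.1 (by omega)).2
    rw [hpq] at h1
    rw [h1] at h2
    exact Fin.ext (by omega)
  have hnodC : C.Nodup := by
    rw [List.nodup_iff_injective_get]
    intro p q hpq
    simp only [hC, List.get_eq_getElem, List.getElem_iterate] at hpq
    have hp : p.1 < j := lt_of_lt_of_eq p.2 (List.length_iterate f y j)
    have hq : q.1 < j := lt_of_lt_of_eq q.2 (List.length_iterate f y j)
    have h1 := (hy p.1 (by omega)).2
    have h2 := (hy q.1 (by omega)).2
    rw [hpq] at h1
    rw [h1] at h2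
    exact Fin.ext (by omega)
  have heq : A ++ z :: C.reverse = (A ++ [z]) ++ C.reverse := by simp
  refine ⟨A ++ z :: C.reverse, ⟨?_, ?_, ?_⟩, ?_, ?_, hnB, A, z, C.reverse, rfl, hc1, hc2, ?_⟩
  · rw [List.isChain_split]
    constructor
    · refine List.IsChain.imp_of_mem_imp ?_ hc1
      intro u v hu hv h
      rw [← h]
      refine hf.adj u (hnB u ?_)
      rw [heq]; exact List.mem_append.2 (Or.inl hu)
    · refine List.IsChain.imp_of_mem_imp ?_ hc2
      intro u v hu hv h
      rw [← h]
      refine (hf.adj v (hnB v ?_)).symm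
      exact List.mem_append.2 (Or.inr hv)
  · rw [heq, List.nodup_append]
    refine ⟨hnodA, List.nodup_reverse.2 hnodC, ?_⟩
    intro u hu v hv huv
    rw [List.mem_reverse] at hv
    obtain ⟨a, ha, rfl⟩ := hmemA u hu
    obtain ⟨b, hb, rfl⟩ := hmemC v hv
    exact hmin a b (by omega) (hx a ha).1 huv
  · rw [List.getLast?_append, List.getLast?_cons, List.getLast?_reverse]
    rcases Nat.eq_zero_or_pos j with hj | hj
    · subst hj
      have : C = [] := by rw [hC]; rfl
      rw [this]
      simp only [List.head?_nil, Option.getD_none, Option.some_or]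
      rw [hij]; rfl
    · obtain ⟨j', rfl⟩ := Nat.exists_eq_succ_of_ne_zero hj.ne'
      have : C.head? = some y := by rw [hC, List.iterate]; rfl
      rw [this]
      simp
  · rcases Nat.eq_zero_or_pos i with hi | hi
    · subst hi
      have : A = [] := by rw [hA]; rfl
      rw [this]
      rfl
    · obtain ⟨i', rfl⟩ := Nat.exists_eq_succ_of_ne_zero hi.ne'
      rw [hA, List.iterate]; rfl
  · rw [List.length_append, List.length_cons, List.length_reverse, hA, hC, List.length_iterate,
      List.length_iterate]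
    omega
  · intro hmem
    have h1 := hdep _ hmem
    have h2 := dep_not_mem hiB (hf.hit z)
    omega

end aux

theorem CMP (h5 : H5_stmt) : CMP_stmt := by
  classical
  intro V _ _ G d K hreg hK B x y ℓ hB
  set E := (fors G B).filter (fun f => ∃ i j, i + j ≤ ℓ ∧ f^[i] x = f^[j] y ∧ f^[i] x ∉ B) with hE
  set E' := (fors G {y}).filter (fun f => dep {y} f x ≤ ℓ) with hE'
  have hposB : 0 < ((fors G B).card : ℝ) := by
    exact_mod_cast Finset.card_pos.2 (fors_nonempty hreg.conn hB)
  have hposy : 0 < ((fors G {y}).card : ℝ) := by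
    exact_mod_cast Finset.card_pos.2 (fors_nonempty hreg.conn ⟨y, by simp⟩)
  have hl : EF G B (fun f => ind (∃ i j, i + j ≤ ℓ ∧ f^[i] x = f^[j] y ∧ f^[i] x ∉ B)) =
      (E.card : ℝ) / (fors G B).card := by
    unfold EF
    congr 1
    rw [hE, Finset.card_filter]
    push_cast
    refine Finset.sum_congr rfl (fun f _ => ?_)
    unfold ind
    split_ifs <;> simp
  have hr : EF G {y} (fun f => ind (dep {y} f x ≤ ℓ)) = (E'.card : ℝ) / (fors G {y}).card := by
    unfold EF
    congr 1
    rw [hE', Finset.card_filter]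
    push_cast
    refine Finset.sum_congr rfl (fun f _ => ?_)
    unfold ind
    split_ifs <;> simp
  rw [hl, hr, div_le_div_iff₀ hposB hposy]
  -- choice of the path
  have hch : ∀ f ∈ E, ∃ η : List V, PathTo G y η ∧ η.head? = some x ∧ η.length ≤ ℓ + 1 ∧
      (∀ u ∈ η, u ∉ B) ∧ Cont f η := by
    intro f hf
    rw [hE, mem_filter, mem_fors] at hf
    exact CMP_path hf.1 hf.2
  choose! η hη using hch
  set P := E.image η with hP
  have hPP : ∀ γ ∈ P, PathTo G y γ ∧ γ.head? = some x ∧ γ.length ≤ ℓ + 1 ∧ (∀ u ∈ γ, u ∉ B) := by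
    intro γ hγ
    rw [hP, mem_image] at hγ
    obtain ⟨f, hf, rfl⟩ := hγ
    exact ⟨(hη f hf).1, (hη f hf).2.1, (hη f hf).2.2.1, (hη f hf).2.2.2.1⟩
  have h1 : (E.card : ℝ) ≤ ∑ γ ∈ P, (((fors G B).filter (fun f => Cont f γ)).card : ℝ) := by
    have hsub : E ⊆ P.biUnion (fun γ => (fors G B).filter (fun f => Cont f γ)) := by
      intro f hf
      rw [mem_biUnion]
      refine ⟨η f, mem_image_of_mem _ hf, ?_⟩
      rw [mem_filter]
      exact ⟨(mem_filter.1 hf).1, (hη f hf).2.2.2.2⟩
    exact_mod_cast (Finset.card_le_card hsub).trans Finset.card_biUnion_le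
  have h2 : ∀ γ ∈ P, (((fors G B).filter (fun f => Cont f γ)).card : ℝ) * (fors G {y}).card ≤
      (((fors G {y}).filter (fun f => pth {y} f x = γ)).card : ℝ) * (fors G B).card := by
    intro γ hγ
    obtain ⟨hp, hh, hlen, hnB⟩ := hPP γ hγ
    obtain ⟨δ, hδ⟩ : ∃ δ, γ = x :: δ := by
      cases γ with
      | nil => simp at hh
      | cons a δ => 
        have : a = x := by simpa using hh
        exact ⟨δ, by rw [this]⟩
    have h3 := h5 V G d K hreg hK B y γ hB hp hnB
    rw [hδ, card_path y x δ (hδ ▸ hp), ← hδ]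
    convert h3 using 3
  have h3 : ∑ γ ∈ P, (((fors G {y}).filter (fun f => pth {y} f x = γ)).card : ℝ) ≤ (E'.card : ℝ) := by
    have hd : (P : Set (List V)).PairwiseDisjoint
        (fun γ => (fors G {y}).filter (fun f => pth {y} f x = γ)) := by
      intro γ _ γ' _ hne
      rw [Function.onFun, Finset.disjoint_left]
      intro f hf hf'
      exact hne ((mem_filter.1 hf).2.symm.trans (mem_filter.1 hf').2)
    have hsub : P.biUnion (fun γ => (fors G {y}).filter (fun f => pth {y} f x = γ)) ⊆ E' := by
      intro f hf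
      rw [mem_biUnion] at hf
      obtain ⟨γ, hγ, hf⟩ := hf
      rw [mem_filter] at hf
      rw [hE', mem_filter]
      refine ⟨hf.1, ?_⟩
      have h4 := (hPP γ hγ).2.2.1
      rw [← hf.2, pth_length] at h4
      omega
    have := Finset.card_le_card hsub
    rw [Finset.card_biUnion hd] at this
    exact_mod_cast this
  calc (E.card : ℝ) * (fors G {y}).card
      ≤ (∑ γ ∈ P, (((fors G B).filter (fun f => Cont f γ)).card : ℝ)) * (fors G {y}).card :=
        mul_le_mul_of_nonneg_right h1 hposy.le
    _ = ∑ γ ∈ P, (((fors G B).filter (fun f => Cont f γ)).card : ℝ) * (fors G {y}).card :=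
        Finset.sum_mul _ _ _
    _ ≤ ∑ γ ∈ P, (((fors G {y}).filter (fun f => pth {y} f x = γ)).card : ℝ) * (fors G B).card :=
        Finset.sum_le_sum h2
    _ = (∑ γ ∈ P, (((fors G {y}).filter (fun f => pth {y} f x = γ)).card : ℝ)) * (fors G B).card :=
        (Finset.sum_mul _ _ _).symm
    _ ≤ (E'.card : ℝ) * (fors G B).card := mul_le_mul_of_nonneg_right h3 hposB.le

end Pool.Agent.helper66.FB
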