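import Pool.Agent.helper66.FB.Spec

/-!
Module IT of part B of the functional form of MP_5ae64c_pr: the skeleton spanned by `J` independent
uniform vertices is built vertex by vertex.
-/

set_option autoImplicit false

open scoped BigOperators Topology
open Filter MeasureTheory

namespace Pool.Agent.helper66.FB

set_option linter.unusedSectionVars false
set_option linter.unusedVariables false

open Finset
open Pool.Agent.helper72.UT (IsFor dep pth rt fors Reg lz mem_fors fors_nonempty pth_mem rt_mem
  self_mem_pth)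
open Pool.Agent.helper90.FN (EF glue dn sk avJ Hit G1_stmt G2_stmt G3_stmt G4_stmt Cl)

variable {V : Type} [Fintype V] [DecidableEq V]

/-- paths stay in closed sets -/
lemma IT_pth_sub {D E : Finset V} {f : V → V} (h : Cl D E f) {z x : V} (hz : z ∈ E)
    (hx : x ∈ pth D f z) : x ∈ E := by
  have key : ∀ (n : ℕ) (z : V), z ∈ E → ∀ x ∈ List.iterate f z n, x ∈ E := by
    intro n
    induction n with
    | zero => intro z _ x hx; simp [List.iterate] at hx
    | succ n ih =>
      intro z hz x hx
      rw [List.iterate] at hx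
      rcases List.mem_cons.1 hx with h1 | h1
      · rw [h1]; exact hz
      · exact ih (f z) (h.map z hz) x h1
  exact key _ z hz x hx

/-- one more vertex of the skeleton -/
lemma IT_sk (h1 : G1_stmt) (h4 : G4_stmt) (G : SimpleGraph V) (D : Finset V) {f g : V → V} (v : V)
    (l : List V) (hf : f ∈ fors G D) (hg : g ∈ fors G (dn D f v)) :
    sk D (glue (dn D f v) f g) (v :: l) = sk (dn D f v) g l := by
  have hcl : Cl D (dn D f v) f := (h4 V G D).1 v f hf
  obtain ⟨_, _, _, hp⟩ := h1 V G D (dn D f v) f g hf hcl hg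
  have hgF : IsFor G (dn D f v) g := mem_fors.1 hg
  have hvE : v ∈ dn D f v := by
    unfold dn; exact mem_union_right _ (List.mem_toFinset.2 (self_mem_pth v))
  ext x
  unfold sk
  simp only [mem_union, mem_biUnion, List.mem_toFinset, List.mem_cons]
  constructor
  · rintro (hx | ⟨u, hu, hx⟩)
    · exact Or.inl (hcl.sub hx)
    · rw [hp u x] at hx
      rcases hx with hx | hx
      · rcases hu with rfl | hu
        · rw [pth_mem hvE] at hx
          left
          have : x = u := by simpa using hx
          rw [this]; exact hvE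
        · exact Or.inr ⟨u, hu, hx⟩
      · left
        exact IT_pth_sub hcl (hgF.rt_mem_B u) hx
  · rintro (hx | ⟨u, hu, hx⟩)
    · have hx' := hx
      unfold dn at hx'
      rcases mem_union.1 hx' with h | h
      · exact Or.inl h
      · right
        refine ⟨v, Or.inl rfl, ?_⟩
        rw [hp v x]
        right
        rw [rt_mem hvE]
        exact List.mem_toFinset.1 h
    · right
      refine ⟨u, Or.inr hu, ?_⟩
      rw [hp u x]
      exact Or.inl hx

lemma IT_sk_nil (D : Finset V) (f : V → V) : sk D f [] = D := by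
  unfold sk; simp

lemma IT_EF_const (G : SimpleGraph V) (hG : G.Connected) (D : Finset V) (hD : D.Nonempty) (c : ℝ) :
    EF G D (fun _ => c) = c := by
  have : (0 : ℝ) < ((fors G D).card : ℝ) := by
    exact_mod_cast Finset.card_pos.2 (fors_nonempty hG hD)
  unfold EF
  rw [sum_const, nsmul_eq_mul]
  field_simp

lemma IT_EF_congr (G : SimpleGraph V) (D : Finset V) {F F' : (V → V) → ℝ}
    (h : ∀ f ∈ fors G D, F f = F' f) : EF G D F = EF G D F' := by
  unfold EF
  rw [sum_congr rfl h]

lemma IT_avJ_succ (J : ℕ) (F : List V → ℝ) :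
    avJ (J + 1) F = (∑ v, avJ J (fun l => F (v :: l))) / (Fintype.card V : ℝ) := by
  unfold avJ
  rw [← (Fin.consEquiv (fun _ : Fin (J + 1) => V)).sum_comp]
  rw [Fintype.sum_prod_type]
  rw [← sum_div, div_div, ← pow_succ]
  congr 1
  refine sum_congr rfl (fun v _ => ?_)
  refine sum_congr rfl (fun a _ => ?_)
  congr 1
  simp [Fin.consEquiv, List.ofFn_succ]

lemma IT_avJ_EF (G : SimpleGraph V) (D : Finset V) (J : ℕ) (F : List V → (V → V) → ℝ) :
    avJ J (fun l => EF G D (fun f => F l f)) = EF G D (fun f => avJ J (fun l => F l f)) := by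
  unfold avJ EF
  rw [← sum_div, ← sum_div, div_div, div_div, mul_comm, sum_comm]

lemma IT_avJ_congr (J : ℕ) {F F' : List V → ℝ} (h : ∀ l, F l = F' l) : avJ J F = avJ J F' := by
  have : F = F' := funext h
  rw [this]

/-- tower property along the path of `v` -/
lemma IT_tower (h1 : G1_stmt) (h3 : G3_stmt) (h4 : G4_stmt) (G : SimpleGraph V) (D : Finset V)
    (v : V) (F : (V → V) → ℝ) :
    EF G D F = EF G D (fun f => EF G (dn D f v) (fun g => F (glue (dn D f v) f g))) := by
  refine h3 V G D (fun f => dn D f v) ?_ ?_ F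
  · intro f hf; exact (h4 V G D).1 v f hf
  · intro f hf f' hf' h
    exact ((h4 V G D).2.1 v f hf f' hf' h).1

theorem IT : IT_stmt := by
  intro h1 _ h3 h4 V _ _ G hG
  have key : ∀ (J : ℕ) (D : Finset V), D.Nonempty → ∀ (Ψ : Finset V → ℝ),
      avJ J (fun l => EF G D (fun f => Ψ (sk D f l))) = it G J Ψ D := by
    intro J
    induction J with
    | zero =>
      intro D hD Ψ
      unfold avJ it
      simp only [univ_unique, sum_singleton, pow_zero, div_one, List.ofFn_zero]
      rw [IT_EF_congr G D (F' := fun _ => Ψ D) (fun f _ => by rw [IT_sk_nil])]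
      exact IT_EF_const G hG D hD _
    | succ J ih =>
      intro D hD Ψ
      rw [IT_avJ_succ, it]
      congr 1
      refine sum_congr rfl (fun v _ => ?_)
      have e1 : ∀ l : List V, EF G D (fun f => Ψ (sk D f (v :: l))) =
          EF G D (fun f => EF G (dn D f v) (fun g => Ψ (sk (dn D f v) g l))) := by
        intro l
        rw [IT_tower h1 h3 h4 G D v (fun f => Ψ (sk D f (v :: l)))]
        refine IT_EF_congr G D (fun f hf => ?_)
        refine IT_EF_congr G _ (fun g hg => ?_)
        show Ψ (sk D (glue (dn D f v) f g) (v :: l)) = _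
        rw [IT_sk h1 h4 G D v l hf hg]
      rw [IT_avJ_congr J e1, IT_avJ_EF]
      refine IT_EF_congr G D (fun f hf => ?_)
      refine ih (dn D f v) ?_ Ψ
      exact hD.mono (subset_union_left)
  intro D hD
  refine ⟨fun J Ψ => key J D hD Ψ, ?_⟩
  intro J Φ
  rw [IT_avJ_succ]
  congr 1
  refine sum_congr rfl (fun v _ => ?_)
  have e1 : ∀ l : List V, EF G D (fun f => Φ (sk D f ((v :: l).take 1)) (sk D f (v :: l))) =
      EF G D (fun f => EF G (dn D f v) (fun g => Φ (dn D f v) (sk (dn D f v) g l))) := by
    intro l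
    rw [IT_tower h1 h3 h4 G D v (fun f => Φ (sk D f ((v :: l).take 1)) (sk D f (v :: l)))]
    refine IT_EF_congr G D (fun f hf => ?_)
    refine IT_EF_congr G _ (fun g hg => ?_)
    show Φ (sk D (glue (dn D f v) f g) ((v :: l).take 1))
      (sk D (glue (dn D f v) f g) (v :: l)) = _
    rw [IT_sk h1 h4 G D v l hf hg]
    have : (v :: l).take 1 = [v] := by simp
    rw [this, IT_sk h1 h4 G D v [] hf hg, IT_sk_nil]
  rw [IT_avJ_congr J e1, IT_avJ_EF]
  refine IT_EF_congr G D (fun f hf => ?_)
  exact key J (dn D f v) (hD.mono (subset_union_left)) (Φ (dn D f v))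

end Pool.Agent.helper66.FB
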